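import Pool.Agent.Lib.MP_845f45_al.Top3

namespace Pool.Agent.Results.MP_845f45_al.Full

open Pool.Agent.Lib.MP_845f45_al

theorem result (S : Type) [TopologicalSpace S] [CompactSpace S] [T2Space S] [ConnectedSpace S]
    [ChartedSpace (EuclideanSpace ℝ (Fin 2)) S] :
    ∃ d : ℕ, ∀ (V : Type) [Fintype V] [DecidableEq V] (G : SimpleGraph V) [DecidableRel G.Adj],
      Nonempty (nerve G ≃ₜ S) → IsHyperbolic (gp G) →
        ∀ m : MetricSpace (Bdry (gp G)), IsVisual (gp G) m → confDim m ≤ d :=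
  full_top S

end Pool.Agent.Results.MP_845f45_al.Full
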