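import Pool.Agent.Lib.CD53.Fin

namespace Pool.Agent.Results.MP_845f45_al.Order

open Pool.Agent.Lib.MP_845f45_al

/-- The triangulated surface is orientable: each directed edge `v → u` starts an oriented triangle
`(v, u, σ v u)`, these triangles are invariant under rotation, and the two directions of an edge
give its two different triangles. -/
def IsOriented {V : Type} (G : SimpleGraph V) : Prop :=
  ∃ σ : V → V → V, ∀ v u, G.Adj v u →
    G.Adj v (σ v u) ∧ G.Adj u (σ v u) ∧ σ u (σ v u) = v ∧ σ v u ≠ σ u v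

theorem result : ∃ c C : ℝ, 0 < c ∧
    (∀ k : ℕ, 2 ≤ k → ∀ (V : Type) [Fintype V] [DecidableEq V] (G : SimpleGraph V)
      [DecidableRel G.Adj] (χ : ℤ), IsSurfaceNerve G χ → -(k : ℤ) ≤ χ → IsHyperbolic (gp G) →
      (∃ m : MetricSpace (Bdry (gp G)), IsVisual (gp G) m) ∧
      ∀ m : MetricSpace (Bdry (gp G)), IsVisual (gp G) m →
        confDim m ≤ ENNReal.ofReal (C * Real.log k)) ∧
    ∃ k₀ : ℕ, ∀ k : ℕ, k₀ ≤ k → ∃ (V : Type) (_ : Fintype V) (_ : DecidableEq V)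
      (G : SimpleGraph V) (_ : DecidableRel G.Adj) (χ : ℤ), IsSurfaceNerve G χ ∧ IsOriented G ∧
      -(k : ℤ) ≤ χ ∧ IsHyperbolic (gp G) ∧ ∀ m : MetricSpace (Bdry (gp G)), IsVisual (gp G) m →
        ENNReal.ofReal (c * Real.log k) ≤ confDim m := by
  obtain ⟨C, hC⟩ := Lib.CD53.upper
  exact ⟨_, C, one_div_pos.2 (mul_pos (by norm_num) (Real.log_pos (by norm_num))),
    fun k hk V _ _ G _ χ h1 h2 h3 => ⟨Lib.CD53.visual_of h1 h3, hC k hk V G χ h1 h2 h3⟩,
    _, Lib.CD53.examples⟩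

end Pool.Agent.Results.MP_845f45_al.Order
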